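import Mathlib

set_option autoImplicit false
set_option linter.unusedSectionVars false

open MeasureTheory Set
open scoped Pointwise

namespace Pool.Agent.Results.MP_c3e14a_gt.RegularMaximisers

/-- Euclidean space of dimension `d`. -/
abbrev E (d : ℕ) : Type := EuclideanSpace ℝ (Fin d)

/-- The zonotope `∑ᵢ [o, pᵢ]`, the Minkowski sum of the segments `[o, pᵢ]`. -/
def zonotope {d n : ℕ} (p : Fin n → E d) : Set (E d) := ∑ i, segment ℝ (0 : E d) (p i)

/-- The `k`-dimensional volume `|∧_{i ∈ I} pᵢ|` of the parallelotope spanned by the `pᵢ`,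
`i ∈ I`, with `k = |I|`: the square root of the Gram determinant. -/
noncomputable def wedgeNorm {d n : ℕ} (p : Fin n → E d) (I : Finset (Fin n)) : ℝ :=
  Real.sqrt (Matrix.det (Matrix.of fun i j : I => (inner ℝ (p i) (p j) : ℝ)))

/-- The `k`-th intrinsic volume of the zonotope with generators `p`: the sum of the `k`-volumes
of the parallelotopes spanned by `k` of the generators. -/
noncomputable def V {d n : ℕ} (k : ℕ) (p : Fin n → E d) : ℝ :=
  ∑ I ∈ (Finset.univ : Finset (Fin n)).powersetCard k, wedgeNorm p I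

/-- The volume of the unit ball in dimension `m`. -/
noncomputable def kappa (m : ℕ) : ℝ := (volume (Metric.ball (0 : E m) 1)).toReal

/-- The mean width of the zonotope with generators `p`. -/
noncomputable def meanWidth {d n : ℕ} (p : Fin n → E d) : ℝ :=
  2 * kappa (d - 1) / (d * kappa d) * ∑ i, ‖p i‖

/-- `p` lists the vertices of a regular simplex centred at the origin. -/
def IsCentredRegularSimplex {d : ℕ} (p : Fin (d + 1) → E d) : Prop :=
  (∑ i, p i = 0) ∧ ∃ l : ℝ, 0 < l ∧ ∀ i j, i ≠ j → dist (p i) (p j) = l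

/-! ### Maclaurin's inequality with its equality case -/

theorem young (A B : ℝ) (hA : 0 ≤ A) (hB : 0 ≤ B) (k : ℕ) :
    0 ≤ A ^ (k + 1) + k * B ^ (k + 1) - (k + 1) * A * B ^ k := by
  induction k with
  | zero => simp
  | succ k ih =>
    have h : A ^ (k + 1 + 1) + ((k + 1 : ℕ) : ℝ) * B ^ (k + 1 + 1)
        - (((k + 1 : ℕ) : ℝ) + 1) * A * B ^ (k + 1)
        = A * (A ^ (k + 1) + k * B ^ (k + 1) - (k + 1) * A * B ^ k)
          + (k + 1) * B ^ k * (A - B) ^ 2 := by
      push_cast; ring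
    rw [h]
    have := mul_nonneg hA ih
    positivity

theorem young_eq (A B : ℝ) (hA : 0 ≤ A) (hB : 0 ≤ B) (k : ℕ)
    (h : A ^ (k + 1 + 1) + ((k + 1 : ℕ) : ℝ) * B ^ (k + 1 + 1)
        - (((k + 1 : ℕ) : ℝ) + 1) * A * B ^ (k + 1) = 0) : A = B := by
  have h2 : A ^ (k + 1 + 1) + ((k + 1 : ℕ) : ℝ) * B ^ (k + 1 + 1)
        - (((k + 1 : ℕ) : ℝ) + 1) * A * B ^ (k + 1)
        = A * (A ^ (k + 1) + k * B ^ (k + 1) - (k + 1) * A * B ^ k)
          + (k + 1) * B ^ k * (A - B) ^ 2 := by
      push_cast; ring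
  rcases hB.eq_or_lt with hB0 | hB0
  · rw [← hB0] at h ⊢
    have : A ^ (k + 1 + 1) = 0 := by simpa using h
    exact pow_eq_zero_iff (by omega) |>.1 this
  · rw [h2] at h
    have h3 := mul_nonneg hA (young A B hA hB k)
    have h4 : 0 ≤ (k + 1) * B ^ k * (A - B) ^ 2 := by positivity
    have h5 : (k + 1) * B ^ k * (A - B) ^ 2 = 0 := by linarith
    have h6 : ((k : ℝ) + 1) * B ^ k ≠ 0 := by positivity
    have h7 : (A - B) ^ 2 = 0 := by
      rcases mul_eq_zero.1 h5 with h | h
      · exact absurd h h6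
      · exact h
    have := pow_eq_zero_iff (two_ne_zero) |>.1 h7
    linarith

section esum
variable {ι : Type*} [DecidableEq ι]

/-- Elementary symmetric sums over a finset. -/
def esum (s : Finset ι) (x : ι → ℝ) (k : ℕ) : ℝ := ∑ t ∈ s.powersetCard k, ∏ i ∈ t, x i

theorem esum_zero (s : Finset ι) (x : ι → ℝ) : esum s x 0 = 1 := by
  simp [esum]

theorem esum_insert (a : ι) (s : Finset ι) (ha : a ∉ s) (x : ι → ℝ) (k : ℕ) :
    esum (insert a s) x (k + 1) = esum s x (k + 1) + x a * esum s x k := by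
  unfold esum
  rw [Finset.powersetCard_succ_insert ha, Finset.sum_union, Finset.mul_sum]
  · congr 1
    rw [Finset.sum_image]
    · refine Finset.sum_congr rfl (fun t ht => ?_)
      rw [Finset.prod_insert]
      exact fun h => ha ((Finset.mem_powersetCard.1 ht).1 h)
    · intro t ht u hu htu
      have h1 : a ∉ t := fun h => ha ((Finset.mem_powersetCard.1 ht).1 h)
      have h2 : a ∉ u := fun h => ha ((Finset.mem_powersetCard.1 hu).1 h)
      have := congrArg (fun z => Finset.erase z a) htu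
      simpa [Finset.erase_insert h1, Finset.erase_insert h2] using this
  · rw [Finset.disjoint_left]
    intro t ht hu
    obtain ⟨u, hu, rfl⟩ := Finset.mem_image.1 hu
    exact ha ((Finset.mem_powersetCard.1 ht).1 (Finset.mem_insert_self a u))

theorem step_id (m k : ℕ) (A B xa : ℝ) (hA : ((m : ℝ) + 1) * A = m * B + xa) :
    ((m : ℝ) + 1) * (((m + 1).choose (k + 1) : ℝ) * A ^ (k + 1)
      - ((m.choose (k + 1) : ℝ) * B ^ (k + 1) + xa * ((m.choose k : ℝ) * B ^ k)))
    = (m + 1) * ((m + 1).choose (k + 1) : ℝ) *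
      (A ^ (k + 1) + k * B ^ (k + 1) - (k + 1) * A * B ^ k) := by
  have h1 : ((m : ℝ) + 1) * (m.choose k : ℝ) = ((m + 1).choose (k + 1) : ℝ) * (k + 1) := by
    have := Nat.add_one_mul_choose_eq m k
    exact_mod_cast this
  have h2 : ((m + 1).choose (k + 1) : ℝ) = (m.choose k : ℝ) + (m.choose (k + 1) : ℝ) := by
    have := Nat.choose_succ_succ m k
    exact_mod_cast this
  have hx : xa = ((m : ℝ) + 1) * A - m * B := by linarith
  rw [hx]
  have h3 : ((m : ℝ) + 1) * (m.choose (k + 1) : ℝ)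
      = ((m + 1).choose (k + 1) : ℝ) * ((m : ℝ) - k) := by
    have : (m.choose (k + 1) : ℝ) = ((m + 1).choose (k + 1) : ℝ) - (m.choose k : ℝ) := by linarith
    rw [this, mul_sub, h1]; ring
  linear_combination (-(B ^ (k + 1))) * h3 - (((m : ℝ) + 1) * A - m * B) * B ^ k * h1

theorem mean_nonneg (s : Finset ι) (x : ι → ℝ) (hx : ∀ i ∈ s, 0 ≤ x i) :
    0 ≤ (∑ i ∈ s, x i) / s.card := div_nonneg (Finset.sum_nonneg hx) (by positivity)

theorem card_mul_mean (s : Finset ι) (x : ι → ℝ) :
    (s.card : ℝ) * ((∑ i ∈ s, x i) / s.card) = ∑ i ∈ s, x i := by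
  rcases s.eq_empty_or_nonempty with rfl | hs
  · simp
  · have : (s.card : ℝ) ≠ 0 := by
      have := Finset.card_pos.2 hs
      positivity
    field_simp

theorem maclaurin (s : Finset ι) (x : ι → ℝ) (hx : ∀ i ∈ s, 0 ≤ x i) (k : ℕ) :
    esum s x k ≤ (s.card.choose k : ℝ) * ((∑ i ∈ s, x i) / s.card) ^ k := by
  induction s using Finset.induction_on generalizing k with
  | empty =>
    cases k with
    | zero => simp [esum]
    | succ k =>
      have : Finset.powersetCard (k + 1) (∅ : Finset ι) = ∅ :=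
        Finset.powersetCard_eq_empty.2 (by simp)
      simp [esum, this]
  | insert a s ha ih =>
    cases k with
    | zero => rw [esum_zero]; simp
    | succ k =>
      have hxs : ∀ i ∈ s, 0 ≤ x i := fun i hi => hx i (Finset.mem_insert_of_mem hi)
      have hxa : 0 ≤ x a := hx a (Finset.mem_insert_self a s)
      rw [esum_insert a s ha, Finset.card_insert_of_notMem ha]
      have h1 := ih hxs (k + 1)
      have h2 := mul_le_mul_of_nonneg_left (ih hxs k) hxa
      set B := (∑ i ∈ s, x i) / s.card with hB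
      set A := (∑ i ∈ insert a s, x i) / ((s.card + 1 : ℕ) : ℝ) with hA
      have hB0 : 0 ≤ B := mean_nonneg s x hxs
      have hA0 : 0 ≤ A := div_nonneg (Finset.sum_nonneg hx) (by positivity)
      have hAB : ((s.card : ℝ) + 1) * A = s.card * B + x a := by
        rw [hA, hB, card_mul_mean, Finset.sum_insert ha]
        push_cast
        field_simp
        ring
      have h3 := step_id s.card k A B (x a) hAB
      have h4 := young A B hA0 hB0 k
      have h5 : 0 ≤ ((s.card : ℝ) + 1) * ((s.card + 1).choose (k + 1) : ℝ) *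
          (A ^ (k + 1) + k * B ^ (k + 1) - (k + 1) * A * B ^ k) := by positivity
      rw [← h3] at h5
      have h6 := nonneg_of_mul_nonneg_right h5 (by positivity)
      linarith

theorem maclaurin_eq (s : Finset ι) (x : ι → ℝ) (hx : ∀ i ∈ s, 0 ≤ x i) (k : ℕ)
    (hk : k + 2 ≤ s.card)
    (h : (s.card.choose (k + 2) : ℝ) * ((∑ i ∈ s, x i) / s.card) ^ (k + 2) ≤ esum s x (k + 2))
    (a : ι) (ha : a ∈ s) : x a = (∑ i ∈ s, x i) / s.card := by
  obtain ⟨t, hat, rfl⟩ : ∃ t, a ∉ t ∧ insert a t = s :=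
    ⟨s.erase a, Finset.notMem_erase a s, Finset.insert_erase ha⟩
  have hxs : ∀ i ∈ t, 0 ≤ x i := fun i hi => hx i (Finset.mem_insert_of_mem hi)
  have hxa : 0 ≤ x a := hx a (Finset.mem_insert_self a t)
  rw [esum_insert a t hat, Finset.card_insert_of_notMem hat] at h
  rw [Finset.card_insert_of_notMem hat] at hk
  rw [Finset.card_insert_of_notMem hat]
  have h1 := maclaurin t x hxs (k + 1 + 1)
  have h2 := mul_le_mul_of_nonneg_left (maclaurin t x hxs (k + 1)) hxa
  set B := (∑ i ∈ t, x i) / t.card with hB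
  set A := (∑ i ∈ insert a t, x i) / ((t.card + 1 : ℕ) : ℝ) with hA
  have hB0 : 0 ≤ B := mean_nonneg t x hxs
  have hA0 : 0 ≤ A := div_nonneg (Finset.sum_nonneg hx) (by positivity)
  have hAB : ((t.card : ℝ) + 1) * A = t.card * B + x a := by
    rw [hA, hB, card_mul_mean, Finset.sum_insert hat]
    push_cast
    field_simp
    ring
  have h3 := step_id t.card (k + 1) A B (x a) hAB
  have h4 := young A B hA0 hB0 (k + 1)
  have hC : 0 < ((t.card + 1).choose (k + 1 + 1) : ℝ) := by
    have := Nat.choose_pos hk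
    exact_mod_cast this
  have h5 : (((t.card + 1).choose (k + 1 + 1) : ℝ) * A ^ (k + 1 + 1)
      - ((t.card.choose (k + 1 + 1) : ℝ) * B ^ (k + 1 + 1)
        + x a * ((t.card.choose (k + 1) : ℝ) * B ^ (k + 1)))) ≤ 0 := by
    linarith
  have h6 : ((t.card : ℝ) + 1) * (((t.card + 1).choose (k + 1 + 1) : ℝ) * A ^ (k + 1 + 1)
      - ((t.card.choose (k + 1 + 1) : ℝ) * B ^ (k + 1 + 1)
        + x a * ((t.card.choose (k + 1) : ℝ) * B ^ (k + 1)))) ≤ 0 :=
    mul_nonpos_of_nonneg_of_nonpos (by positivity) h5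
  rw [h3] at h6
  have h7 : A ^ (k + 1 + 1) + ((k + 1 : ℕ) : ℝ) * B ^ (k + 1 + 1)
        - (((k + 1 : ℕ) : ℝ) + 1) * A * B ^ (k + 1) = 0 := by
    refine le_antisymm ?_ h4
    by_contra hcon
    push Not at hcon
    have : 0 < ((t.card : ℝ) + 1) * ((t.card + 1).choose (k + 1 + 1) : ℝ) *
      (A ^ (k + 1 + 1) + ((k + 1 : ℕ) : ℝ) * B ^ (k + 1 + 1)
        - (((k + 1 : ℕ) : ℝ) + 1) * A * B ^ (k + 1)) := by positivity
    linarith
  have h8 := young_eq A B hA0 hB0 k h7
  rw [← h8] at hAB
  linarith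

end esum


/-! ### Sums of principal minors of Gram matrices -/

section minors
open Matrix Polynomial

theorem minors_gram {d n : ℕ} (A : Matrix (Fin d) (Fin n) ℝ) (k : ℕ) :
    ∑ I ∈ (Finset.univ : Finset (Fin n)).powersetCard k,
      ((Aᵀ * A).submatrix (Subtype.val : I → Fin n) (Subtype.val : I → Fin n)).det
    = ∑ J ∈ (Finset.univ : Finset (Fin d)).powersetCard k,
      ((A * Aᵀ).submatrix (Subtype.val : J → Fin d) (Subtype.val : J → Fin d)).det := by
  rw [← coeff_det_one_add_X_smul_eq_sum_minors, ← coeff_det_one_add_X_smul_eq_sum_minors]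
  congr 1
  rw [Matrix.map_mul, Matrix.map_mul, ← Matrix.smul_mul, Matrix.det_one_add_mul_comm,
    ← Matrix.mul_smul]

theorem minors_eigen {d : ℕ} (S : Matrix (Fin d) (Fin d) ℝ) (hS : S.IsHermitian) (k : ℕ)
    (hk : k ≤ d) :
    ∑ J ∈ (Finset.univ : Finset (Fin d)).powersetCard k,
      (S.submatrix (Subtype.val : J → Fin d) (Subtype.val : J → Fin d)).det
    = esum Finset.univ hS.eigenvalues k := by
  have h1 := S.charpoly_coeff_eq_sum_minors k (by simpa using hk)
  have h2 := Finset.prod_X_add_C_coeff (Finset.univ : Finset (Fin d))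
    (fun i => -hS.eigenvalues i) (k := d - k) (by simp)
  rw [hS.charpoly_eq] at h1
  have h3 : ∏ i, (X - C ((hS.eigenvalues i : ℝ))) = ∏ i, (X + C (-hS.eigenvalues i)) := by
    refine Finset.prod_congr rfl (fun i _ => ?_)
    rw [map_neg, sub_eq_add_neg]
  simp only [Fintype.card_fin] at h1
  simp only [Finset.card_univ, Fintype.card_fin] at h2
  have hdk : d - (d - k) = k := by omega
  rw [hdk] at h2
  have h4 : ((-1 : ℝ)) ^ k * ∑ J ∈ (Finset.univ : Finset (Fin d)).powersetCard k,
      (S.submatrix (Subtype.val : J → Fin d) (Subtype.val : J → Fin d)).det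
      = (-1) ^ k * esum Finset.univ hS.eigenvalues k := by
    rw [← h1]
    have h5 : (∏ i, (X - C ((hS.eigenvalues i : ℝ)))).coeff (d - k)
        = ∑ t ∈ Finset.powersetCard k Finset.univ, ∏ i ∈ t, -hS.eigenvalues i := by
      rw [h3]; exact h2
    refine h5.trans ?_
    unfold esum
    rw [Finset.mul_sum]
    refine Finset.sum_congr rfl (fun t ht => ?_)
    rw [Finset.prod_neg, (Finset.mem_powersetCard.1 ht).2]
  have h6 : ((-1 : ℝ)) ^ k ≠ 0 := pow_ne_zero _ (by norm_num)
  exact mul_left_cancel₀ h6 h4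

/-- The matrix with columns `x i`. -/
def colMat {d n : ℕ} (x : Fin n → E d) : Matrix (Fin d) (Fin n) ℝ := fun j i => x i j

theorem colMat_gram {d n : ℕ} (x : Fin n → E d) (i i' : Fin n) :
    ((colMat x)ᵀ * colMat x) i i' = inner ℝ (x i) (x i') := by
  rw [Matrix.mul_apply, PiLp.inner_apply]
  refine Finset.sum_congr rfl (fun j _ => ?_)
  simp [colMat, mul_comm]

theorem S_herm {d n : ℕ} (x : Fin n → E d) : (colMat x * (colMat x)ᵀ).PosSemidef := by
  have := Matrix.posSemidef_self_mul_conjTranspose (colMat x)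
  rwa [Matrix.conjTranspose_eq_transpose_of_trivial] at this

theorem trace_S {d n : ℕ} (x : Fin n → E d) :
    ∑ j, (S_herm x).isHermitian.eigenvalues j = ∑ i, ‖x i‖ ^ 2 := by
  have h := (S_herm x).isHermitian.trace_eq_sum_eigenvalues
  have h2 : (colMat x * (colMat x)ᵀ).trace = ((colMat x)ᵀ * colMat x).trace :=
    Matrix.trace_mul_comm _ _
  rw [h2] at h
  have h3 : ((colMat x)ᵀ * colMat x).trace = ∑ i, ‖x i‖ ^ 2 := by
    rw [Matrix.trace]
    refine Finset.sum_congr rfl (fun i _ => ?_)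
    rw [Matrix.diag_apply, colMat_gram, real_inner_self_eq_norm_sq]
  rw [h3] at h
  exact h.symm

/-- Sum of the `k × k` Gram determinants. -/
theorem gram_sum_le {d n : ℕ} (x : Fin n → E d) (k : ℕ) (hk : k ≤ d) :
    ∑ I ∈ (Finset.univ : Finset (Fin n)).powersetCard k,
      Matrix.det (Matrix.of fun i j : I => (inner ℝ (x i) (x j) : ℝ))
    ≤ (d.choose k : ℝ) * ((∑ i, ‖x i‖ ^ 2) / d) ^ k := by
  have h1 : ∑ I ∈ (Finset.univ : Finset (Fin n)).powersetCard k,
      Matrix.det (Matrix.of fun i j : I => (inner ℝ (x i) (x j) : ℝ))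
      = esum Finset.univ (S_herm x).isHermitian.eigenvalues k := by
    rw [← minors_eigen _ (S_herm x).isHermitian k hk, ← minors_gram]
    refine Finset.sum_congr rfl (fun I _ => ?_)
    congr 1
    ext i j
    rw [Matrix.submatrix_apply, colMat_gram, Matrix.of_apply]
  rw [h1, ← trace_S x]
  have := maclaurin Finset.univ (S_herm x).isHermitian.eigenvalues
    (fun i _ => (S_herm x).eigenvalues_nonneg i) k
  simpa using this

/-- Equality case: the frame operator is scalar. -/
theorem gram_sum_eq {d n : ℕ} (x : Fin n → E d) (k : ℕ) (hk : k + 2 ≤ d)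
    (h : (d.choose (k + 2) : ℝ) * ((∑ i, ‖x i‖ ^ 2) / d) ^ (k + 2) ≤
      ∑ I ∈ (Finset.univ : Finset (Fin n)).powersetCard (k + 2),
        Matrix.det (Matrix.of fun i j : I => (inner ℝ (x i) (x j) : ℝ))) :
    colMat x * (colMat x)ᵀ = ((∑ i, ‖x i‖ ^ 2) / d) • (1 : Matrix (Fin d) (Fin d) ℝ) := by
  have h1 : ∑ I ∈ (Finset.univ : Finset (Fin n)).powersetCard (k + 2),
      Matrix.det (Matrix.of fun i j : I => (inner ℝ (x i) (x j) : ℝ))
      = esum Finset.univ (S_herm x).isHermitian.eigenvalues (k + 2) := by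
    rw [← minors_eigen _ (S_herm x).isHermitian (k + 2) hk, ← minors_gram]
    refine Finset.sum_congr rfl (fun I _ => ?_)
    congr 1
    ext i j
    rw [Matrix.submatrix_apply, colMat_gram, Matrix.of_apply]
  rw [h1, ← trace_S x] at h
  have h2 := maclaurin_eq Finset.univ (S_herm x).isHermitian.eigenvalues
    (fun i _ => (S_herm x).eigenvalues_nonneg i) k (by simpa using hk) (by simpa using h)
  rw [trace_S x] at h2
  have hsp := (S_herm x).isHermitian.spectral_theorem
  have h3 : (S_herm x).isHermitian.eigenvalues = fun _ => (∑ i, ‖x i‖ ^ 2) / d := by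
    funext j
    have := h2 j (Finset.mem_univ j)
    simpa using this
  rw [h3] at hsp
  rw [hsp]
  have h4 : Matrix.diagonal (RCLike.ofReal ∘ fun _ : Fin d => (∑ i, ‖x i‖ ^ 2) / (d : ℝ))
      = ((∑ i, ‖x i‖ ^ 2) / (d : ℝ)) • (1 : Matrix (Fin d) (Fin d) ℝ) := by
    ext a b
    rw [Matrix.diagonal_apply, Matrix.smul_apply, Matrix.one_apply]
    split_ifs <;> simp
  rw [h4, map_smul, map_one]

end minors


/-! ### The upper bound -/

/-- The bound. -/
noncomputable def Mx (d k : ℕ) (L : ℝ) : ℝ :=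
  Real.sqrt (((d + 1).choose k : ℝ) * (L / ((d + 1 : ℕ) : ℝ)) ^ k) *
    Real.sqrt ((d.choose k : ℝ) * (L / d) ^ k)

/-- The renormalised generators. -/
noncomputable def xs {d n : ℕ} (p : Fin n → E d) : Fin n → E d :=
  fun i => (Real.sqrt ‖p i‖)⁻¹ • p i

theorem p_eq {d n : ℕ} (p : Fin n → E d) (i : Fin n) : p i = Real.sqrt ‖p i‖ • xs p i := by
  unfold xs
  by_cases h : p i = 0
  · rw [h]; simp
  · rw [smul_smul, mul_inv_cancel₀, one_smul]
    exact (Real.sqrt_pos.2 (norm_pos_iff.2 h)).ne'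

theorem norm_xs {d n : ℕ} (p : Fin n → E d) (i : Fin n) : ‖xs p i‖ ^ 2 = ‖p i‖ := by
  unfold xs
  by_cases h : p i = 0
  · rw [h]; simp
  · have h0 : 0 < ‖p i‖ := norm_pos_iff.2 h
    rw [norm_smul, norm_inv, Real.norm_of_nonneg (Real.sqrt_nonneg _), mul_pow, inv_pow,
      Real.sq_sqrt h0.le]
    field_simp

theorem gram_psd {d n : ℕ} (x : Fin n → E d) (I : Finset (Fin n)) :
    0 ≤ Matrix.det (Matrix.of fun i j : I => (inner ℝ (x i) (x j) : ℝ)) := by
  have h1 : (Matrix.of fun i j : I => (inner ℝ (x i) (x j) : ℝ)) =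
      ((colMat x).submatrix id (Subtype.val : I → Fin n)).conjTranspose *
        ((colMat x).submatrix id (Subtype.val : I → Fin n)) := by
    ext i j
    rw [Matrix.of_apply, ← colMat_gram, Matrix.mul_apply, Matrix.mul_apply]
    simp [Matrix.transpose_apply, Matrix.conjTranspose_apply]
  rw [h1]
  exact (Matrix.posSemidef_conjTranspose_mul_self _).det_nonneg

theorem wedge_eq {d n : ℕ} (p : Fin n → E d) (I : Finset (Fin n)) :
    wedgeNorm p I = Real.sqrt (∏ i ∈ I, ‖p i‖) *
      Real.sqrt (Matrix.det (Matrix.of fun i j : I => (inner ℝ (xs p i) (xs p j) : ℝ))) := by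
  unfold wedgeNorm
  rw [← Real.sqrt_mul (Finset.prod_nonneg fun i _ => norm_nonneg _)]
  congr 1
  have h1 : (Matrix.of fun i j : I => (inner ℝ (p i) (p j) : ℝ)) =
      Matrix.of (fun i j : I => Real.sqrt ‖p i‖ *
        (Matrix.of (fun i j : I => Real.sqrt ‖p j‖ *
          (Matrix.of fun i j : I => (inner ℝ (xs p i) (xs p j) : ℝ)) i j)) i j) := by
    ext i j
    rw [Matrix.of_apply, Matrix.of_apply, Matrix.of_apply, Matrix.of_apply]
    conv_lhs => rw [p_eq p i, p_eq p j]
    rw [inner_smul_left, inner_smul_right]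
    simp
  rw [h1, Matrix.det_mul_column, Matrix.det_mul_row, ← mul_assoc, ← Finset.prod_mul_distrib]
  congr 1
  rw [← Finset.prod_coe_sort I (fun i => ‖p i‖)]
  refine Finset.prod_congr rfl (fun i _ => ?_)
  exact Real.mul_self_sqrt (norm_nonneg _)

theorem V_le_sqrt {d n : ℕ} (p : Fin n → E d) (k : ℕ) :
    V k p ≤ Real.sqrt (esum Finset.univ (fun i => ‖p i‖) k) *
      Real.sqrt (∑ I ∈ (Finset.univ : Finset (Fin n)).powersetCard k,
        Matrix.det (Matrix.of fun i j : I => (inner ℝ (xs p i) (xs p j) : ℝ))) := by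
  unfold V esum
  simp only [wedge_eq]
  exact Real.sum_sqrt_mul_sqrt_le _ (fun I => Finset.prod_nonneg fun i _ => norm_nonneg _)
    (fun I => gram_psd _ I)

theorem esum_norm_le {d : ℕ} (p : Fin (d + 1) → E d) (k : ℕ) :
    esum Finset.univ (fun i => ‖p i‖) k ≤
      ((d + 1).choose k : ℝ) * ((∑ i, ‖p i‖) / ((d + 1 : ℕ) : ℝ)) ^ k := by
  have := maclaurin Finset.univ (fun i => ‖p i‖) (fun i _ => norm_nonneg _) k
  simpa only [Finset.card_univ, Fintype.card_fin] using this

theorem gram_xs_le {d n : ℕ} (p : Fin n → E d) (k : ℕ) (hk : k ≤ d) :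
    ∑ I ∈ (Finset.univ : Finset (Fin n)).powersetCard k,
        Matrix.det (Matrix.of fun i j : I => (inner ℝ (xs p i) (xs p j) : ℝ)) ≤
      (d.choose k : ℝ) * ((∑ i, ‖p i‖) / d) ^ k := by
  have := gram_sum_le (xs p) k hk
  simpa only [norm_xs] using this

theorem V_le {d : ℕ} (p : Fin (d + 1) → E d) (k : ℕ) (hk : k ≤ d) :
    V k p ≤ Mx d k (∑ i, ‖p i‖) := by
  refine (V_le_sqrt p k).trans ?_
  unfold Mx
  exact mul_le_mul (Real.sqrt_le_sqrt (esum_norm_le p k)) (Real.sqrt_le_sqrt (gram_xs_le p k hk))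
    (Real.sqrt_nonneg _) (Real.sqrt_nonneg _)

/-! ### The equality case -/

theorem mem_zonotope {d n : ℕ} (p : Fin n → E d) (x : E d) :
    x ∈ zonotope p ↔ ∃ t : Fin n → ℝ, (∀ i, 0 ≤ t i ∧ t i ≤ 1) ∧ x = ∑ i, t i • p i := by
  unfold zonotope
  rw [← parallelepiped_eq_sum_segment, mem_parallelepiped_iff]
  constructor
  · rintro ⟨t, ht, rfl⟩
    exact ⟨t, fun i => ⟨ht.1 i, ht.2 i⟩, rfl⟩
  · rintro ⟨t, ht, rfl⟩
    exact ⟨t, ⟨fun i => (ht i).1, fun i => (ht i).2⟩, rfl⟩

theorem zonotope_flip {d n : ℕ} (p : Fin n → E d) (σ : Fin n → ℝ)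
    (hσ : ∀ i, σ i = 1 ∨ σ i = -1) :
    zonotope p = (fun x => (∑ i, ((1 - σ i) / 2) • p i) + x) '' zonotope (fun i => σ i • p i) := by
  ext x
  rw [mem_zonotope]
  simp only [Set.mem_image, mem_zonotope]
  constructor
  · rintro ⟨t, ht, rfl⟩
    refine ⟨∑ i, ((1 - σ i) / 2 + σ i * t i) • (σ i • p i), ⟨_, ?_, rfl⟩, ?_⟩
    · intro i
      rcases hσ i with h | h <;> rw [h] <;> constructor <;> linarith [(ht i).1, (ht i).2]
    · rw [← Finset.sum_add_distrib]
      refine Finset.sum_congr rfl (fun i _ => ?_)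
      rw [smul_smul, ← add_smul]
      congr 1
      rcases hσ i with h | h <;> rw [h] <;> ring
  · rintro ⟨y, ⟨t, ht, rfl⟩, rfl⟩
    refine ⟨fun i => (1 - σ i) / 2 + σ i * t i, ?_, ?_⟩
    · intro i
      simp only
      rcases hσ i with h | h <;> rw [h] <;> constructor <;> linarith [(ht i).1, (ht i).2]
    · rw [← Finset.sum_add_distrib]
      refine Finset.sum_congr rfl (fun i _ => ?_)
      rw [smul_smul, ← add_smul]
      congr 1
      ring

/-- A tight frame of `d + 1` vectors of equal norm comes from a regular simplex. -/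
theorem regular_of_frame {d : ℕ} (hd : 0 < d) (p : Fin (d + 1) → E d) (L : ℝ) (hL : 0 < L)
    (h1 : ∀ i, ‖p i‖ = L / ((d + 1 : ℕ) : ℝ))
    (h2 : colMat (xs p) * (colMat (xs p)).transpose = (L / d) • (1 : Matrix (Fin d) (Fin d) ℝ)) :
    ∃ σ : Fin (d + 1) → ℝ, (∀ i, σ i = 1 ∨ σ i = -1) ∧
      IsCentredRegularSimplex (fun i => σ i • p i) := by
  have hdR : (0 : ℝ) < d := by exact_mod_cast hd
  -- a normalised linear relation
  obtain ⟨v, hv1, hvrel⟩ : ∃ v : Fin (d + 1) → ℝ, ∑ i, v i ^ 2 = 1 ∧ ∑ i, v i • xs p i = 0 := by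
    have hnot : ¬ LinearIndependent ℝ (xs p) := by
      intro h
      have := h.fintype_card_le_finrank
      simp at this
    obtain ⟨g, hg, i0, hi0⟩ := Fintype.not_linearIndependent_iff.1 hnot
    have hpos : 0 < ∑ i, g i ^ 2 :=
      Finset.sum_pos' (fun i _ => sq_nonneg _) ⟨i0, Finset.mem_univ _, by positivity⟩
    refine ⟨fun i => g i / Real.sqrt (∑ i, g i ^ 2), ?_, ?_⟩
    · simp only [div_pow, ← Finset.sum_div, Real.sq_sqrt hpos.le]
      exact div_self hpos.ne'
    · have : ∀ i, (g i / Real.sqrt (∑ i, g i ^ 2)) • xs p i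
          = (Real.sqrt (∑ i, g i ^ 2))⁻¹ • (g i • xs p i) := by
        intro i; rw [smul_smul]; congr 1; ring
      simp only [this, ← Finset.smul_sum, hg, smul_zero]
  -- the orthogonal matrix
  let c : ℝ := Real.sqrt (d / L)
  have hc : c * c = d / L := Real.mul_self_sqrt (by positivity)
  let Y : Matrix (Fin (d + 1)) (Fin (d + 1)) ℝ := fun j i =>
    Fin.lastCases (motive := fun _ => ℝ) (v i) (fun m => c * xs p i m) j
  have hYlast : ∀ i, Y (Fin.last d) i = v i := fun i =>
    Fin.lastCases_last (motive := fun _ => ℝ) (last := v i) (cast := fun m => c * xs p i m)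
  have hYc : ∀ (m : Fin d) i, Y m.castSucc i = c * xs p i m := fun m i =>
    Fin.lastCases_castSucc (motive := fun _ => ℝ) (last := v i) (cast := fun m => c * xs p i m) m
  have hS : ∀ a b : Fin d, ∑ i, xs p i a * xs p i b = if a = b then L / d else 0 := by
    intro a b
    have := congrFun (congrFun h2 a) b
    rw [Matrix.mul_apply, Matrix.smul_apply, Matrix.one_apply] at this
    simp only [colMat, Matrix.transpose_apply] at this
    rw [this]
    split_ifs <;> simp
  have hrelc : ∀ m : Fin d, ∑ i, v i * xs p i m = 0 := by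
    intro m
    have := congrArg (fun u : E d => u m) hvrel
    simpa [WithLp.ofLp_sum, Finset.sum_apply, PiLp.smul_apply, smul_eq_mul] using this
  have hYY : Y * Y.transpose = 1 := by
    ext a b
    rw [Matrix.mul_apply]
    simp only [Matrix.transpose_apply]
    refine Fin.lastCases ?_ (fun a => ?_) a
    · refine Fin.lastCases ?_ (fun b => ?_) b
      · simp only [hYlast, Matrix.one_apply_eq]
        rw [← hv1]; exact Finset.sum_congr rfl (fun i _ => by ring)
      · simp only [hYlast, hYc]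
        rw [Matrix.one_apply_ne (Fin.castSucc_lt_last b).ne']
        have : ∑ i, v i * (c * xs p i b) = c * ∑ i, v i * xs p i b := by
          rw [Finset.mul_sum]; exact Finset.sum_congr rfl (fun i _ => by ring)
        rw [this, hrelc, mul_zero]
    · refine Fin.lastCases ?_ (fun b => ?_) b
      · simp only [hYlast, hYc]
        rw [Matrix.one_apply_ne (Fin.castSucc_lt_last a).ne]
        have : ∑ i, (c * xs p i a) * v i = c * ∑ i, v i * xs p i a := by
          rw [Finset.mul_sum]; exact Finset.sum_congr rfl (fun i _ => by ring)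
        rw [this, hrelc, mul_zero]
      · simp only [hYc]
        have : ∑ i, (c * xs p i a) * (c * xs p i b) = (c * c) * ∑ i, xs p i a * xs p i b := by
          rw [Finset.mul_sum]; exact Finset.sum_congr rfl (fun i _ => by ring)
        rw [this, hS, hc]
        by_cases hab : a = b
        · rw [if_pos hab, hab, Matrix.one_apply_eq]; field_simp
        · rw [if_neg hab, Matrix.one_apply_ne (fun h => hab (Fin.castSucc_injective _ h)), mul_zero]
  have hYY2 := mul_eq_one_comm.1 hYY
  have hG : ∀ i j, (d / L) * inner ℝ (xs p i) (xs p j) + v i * v j = if i = j then 1 else 0 := by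
    intro i j
    have := congrFun (congrFun hYY2 i) j
    rw [Matrix.mul_apply, Fin.sum_univ_castSucc] at this
    simp only [Matrix.transpose_apply, hYlast, hYc, Matrix.one_apply] at this
    rw [← this, PiLp.inner_apply, Finset.mul_sum]
    congr 1
    refine Finset.sum_congr rfl (fun m _ => ?_)
    rw [← hc]
    simp only [RCLike.inner_apply, conj_trivial]
    ring
  have hn1 : (((d + 1 : ℕ) : ℝ)) = (d : ℝ) + 1 := by push_cast; ring
  have hvi : ∀ i, v i ^ 2 = 1 / ((d : ℝ) + 1) := by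
    intro i
    have := hG i i
    rw [if_pos rfl, real_inner_self_eq_norm_sq, norm_xs, h1, hn1] at this
    have h3 : (d / L) * (L / ((d : ℝ) + 1)) = d / ((d : ℝ) + 1) := by field_simp
    rw [h3] at this
    have h4 : (d : ℝ) / (d + 1) + 1 / (d + 1) = 1 := by field_simp
    nlinarith
  let s : ℝ := Real.sqrt ((d : ℝ) + 1)
  have hs : s * s = (d : ℝ) + 1 := Real.mul_self_sqrt (by positivity)
  have hs0 : 0 < s := Real.sqrt_pos.2 (by positivity)
  refine ⟨fun i => s * v i, ?_, ?_, ?_⟩
  · intro i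
    have h5 : (s * v i) ^ 2 = 1 := by
      rw [mul_pow, hvi, sq, hs]; field_simp
    rcases mul_eq_zero.1 (show (s * v i - 1) * (s * v i + 1) = 0 by nlinarith) with h | h
    · left; simp only; linarith
    · right; simp only; linarith
  · have h6 : ∀ i, (s * v i) • p i = (s * Real.sqrt (L / ((d + 1 : ℕ) : ℝ))) • (v i • xs p i) := by
      intro i
      conv_lhs => rw [p_eq p i, h1]
      rw [smul_smul, smul_smul]
      congr 1; ring
    simp only [h6, ← Finset.smul_sum, hvrel, smul_zero]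
  · let a : ℝ := L / ((d + 1 : ℕ) : ℝ)
    have ha : 0 < a := by positivity
    have hin : ∀ i j, i ≠ j → inner ℝ (xs p i) (xs p j) = -(L / d) * (v i * v j) := by
      intro i j hij
      have := hG i j
      rw [if_neg hij] at this
      field_simp at this ⊢
      linarith
    refine ⟨Real.sqrt (2 * a * (a + L / (d * (d + 1)))), Real.sqrt_pos.2 (by positivity), ?_⟩
    intro i j hij
    rw [dist_eq_norm]
    have hsq : ‖(s * v i) • p i - (s * v j) • p j‖ ^ 2 = 2 * a * (a + L / (d * (d + 1))) := by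
      rw [← real_inner_self_eq_norm_sq, inner_sub_sub_self, real_inner_smul_left,
        real_inner_smul_left, real_inner_smul_left, real_inner_smul_left, real_inner_smul_right,
        real_inner_smul_right, real_inner_smul_right, real_inner_smul_right,
        real_inner_self_eq_norm_sq, real_inner_self_eq_norm_sq, h1, h1]
      have hpp : inner ℝ (p i) (p j) = a * (-(L / d) * (v i * v j)) := by
        conv_lhs => rw [p_eq p i, p_eq p j, h1, h1]
        rw [real_inner_smul_left, real_inner_smul_right, hin i j hij, ← mul_assoc,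
          Real.mul_self_sqrt (by positivity)]
      have hpp' : inner ℝ (p j) (p i) = a * (-(L / d) * (v i * v j)) := by
        rw [real_inner_comm, hpp]
      rw [hpp, hpp']
      have e1 : s * v i * (s * v i * a ^ 2) = a ^ 2 := by
        have : s * v i * (s * v i * a ^ 2) = (s * s) * v i ^ 2 * a ^ 2 := by ring
        rw [this, hs, hvi]; field_simp
      have e2 : s * v j * (s * v j * a ^ 2) = a ^ 2 := by
        have : s * v j * (s * v j * a ^ 2) = (s * s) * v j ^ 2 * a ^ 2 := by ring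
        rw [this, hs, hvi]; field_simp
      have e3 : s * v i * (s * v j * (a * (-(L / d) * (v i * v j))))
          = - (a * L / (d * (d + 1))) := by
        have : s * v i * (s * v j * (a * (-(L / d) * (v i * v j))))
            = - ((s * s) * v i ^ 2 * v j ^ 2 * (a * (L / d))) := by ring
        rw [this, hs, hvi, hvi]; field_simp
      have e4 : s * v j * (s * v i * (a * (-(L / d) * (v i * v j))))
          = - (a * L / (d * (d + 1))) := by
        rw [← e3]; ring
      change s * v i * (s * v i * a ^ 2) - s * v i * (s * v j * (a * (-(L / d) * (v i * v j))))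
        - s * v j * (s * v i * (a * (-(L / d) * (v i * v j)))) + s * v j * (s * v j * a ^ 2) = _
      rw [e1, e2, e3, e4]
      field_simp
      ring
    rw [← hsq, Real.sqrt_sq (norm_nonneg _)]


/-! ### The value at the regular ones -/

theorem gram_regular {d : ℕ} (p : Fin (d + 1) → E d) (hsum : ∑ i, p i = 0) (l : ℝ)
    (hd : ∀ i j, i ≠ j → dist (p i) (p j) = l) (i j : Fin (d + 1)) :
    inner ℝ (p i) (p j) = (l ^ 2 / 2) * ((if i = j then 1 else 0) - 1 / ((d : ℝ) + 1)) := by
  have hI : ∀ i j, inner ℝ (p i) (p j) =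
      (‖p i‖ ^ 2 + ‖p j‖ ^ 2 - l ^ 2 * (1 - if i = j then 1 else 0)) / 2 := by
    intro i j
    by_cases h : i = j
    · rw [h, if_pos rfl, real_inner_self_eq_norm_sq]; ring
    · have h1 := hd i j h
      rw [if_neg h, ← h1, dist_eq_norm, ← real_inner_self_eq_norm_sq (p i - p j),
        inner_sub_sub_self, real_inner_self_eq_norm_sq, real_inner_self_eq_norm_sq,
        real_inner_comm (p i) (p j)]
      ring
  have hrow : ∀ i, ((d : ℝ) + 1) * ‖p i‖ ^ 2 + ∑ j, ‖p j‖ ^ 2 - l ^ 2 * d = 0 := by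
    intro i
    have h1 : ∑ j, (inner ℝ (p i) (p j) : ℝ) = 0 := by
      rw [← inner_sum, hsum, inner_zero_right]
    simp only [hI] at h1
    rw [← Finset.sum_div, Finset.sum_sub_distrib, Finset.sum_add_distrib, ← Finset.mul_sum,
      Finset.sum_sub_distrib] at h1
    simp only [Finset.sum_const, Finset.card_univ, Fintype.card_fin, nsmul_eq_mul, mul_one,
      Finset.sum_ite_eq, Finset.mem_univ, if_true] at h1
    push_cast at h1
    linarith
  have htot : ∑ j, ‖p j‖ ^ 2 = l ^ 2 * d / 2 := by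
    have h1 : ∑ i : Fin (d + 1), (((d : ℝ) + 1) * ‖p i‖ ^ 2 + ∑ j, ‖p j‖ ^ 2 - l ^ 2 * d) = 0 :=
      Finset.sum_eq_zero (fun i _ => hrow i)
    rw [Finset.sum_sub_distrib, Finset.sum_add_distrib, ← Finset.mul_sum] at h1
    simp only [Finset.sum_const, Finset.card_univ, Fintype.card_fin, nsmul_eq_mul] at h1
    push_cast at h1
    have h2 : ((d : ℝ) + 1) * (2 * ∑ j, ‖p j‖ ^ 2 - l ^ 2 * d) = 0 := by linarith
    rcases mul_eq_zero.1 h2 with h | h
    · have : (0 : ℝ) ≤ d := by positivity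
      linarith
    · linarith
  have hN : ∀ i, ‖p i‖ ^ 2 = l ^ 2 * d / (2 * ((d : ℝ) + 1)) := by
    intro i
    have := hrow i
    rw [htot] at this
    field_simp
    linarith
  rw [hI, hN, hN]
  field_simp
  split_ifs <;> ring

theorem det_reg (k : ℕ) (I : Type) [Fintype I] [DecidableEq I] (hI : Fintype.card I = k)
    (c e : ℝ) :
    Matrix.det (Matrix.of fun i j : I => c * ((if i = j then 1 else 0) - e)) =
      c ^ k * (1 - k * e) := by
  have h1 : (Matrix.of fun i j : I => c * ((if i = j then (1 : ℝ) else 0) - e)) =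
      c • (1 + Matrix.replicateCol Unit (fun _ : I => -e) *
        Matrix.replicateRow Unit (fun _ : I => (1 : ℝ))) := by
    ext i j
    rw [Matrix.of_apply, Matrix.smul_apply, Matrix.add_apply, Matrix.one_apply, Matrix.mul_apply]
    simp [sub_eq_add_neg]
  rw [h1, Matrix.det_smul, Matrix.det_one_add_replicateCol_mul_replicateRow, hI]
  congr 1
  simp [dotProduct, Finset.sum_const, Finset.card_univ, hI]
  ring

theorem V_regular {d : ℕ} (hd0 : 0 < d) (p : Fin (d + 1) → E d) (hp : IsCentredRegularSimplex p)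
    (k : ℕ) (hk : k ≤ d) : V k p = Mx d k (∑ i, ‖p i‖) := by
  obtain ⟨hsum, l, hl, hd⟩ := hp
  have hG := gram_regular p hsum l hd
  have hdR : (0 : ℝ) < d := by exact_mod_cast hd0
  have hkR : (k : ℝ) ≤ d := by exact_mod_cast hk
  have hnorm : ∀ i, ‖p i‖ = Real.sqrt (l ^ 2 / 2 * (1 - 1 / ((d : ℝ) + 1))) := by
    intro i
    have := hG i i
    rw [if_pos rfl, real_inner_self_eq_norm_sq] at this
    rw [← this, Real.sqrt_sq (norm_nonneg _)]
  have hpos1 : 0 ≤ 1 - 1 / ((d : ℝ) + 1) := by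
    have : 1 / ((d : ℝ) + 1) ≤ 1 := by
      rw [div_le_one (by positivity)]; linarith
    linarith
  have hposk : 0 ≤ 1 - k * (1 / ((d : ℝ) + 1)) := by
    have : k * (1 / ((d : ℝ) + 1)) ≤ 1 := by
      rw [mul_one_div, div_le_one (by positivity)]; linarith
    linarith
  have hV : V k p = ((d + 1).choose k : ℝ) *
      Real.sqrt ((l ^ 2 / 2) ^ k * (1 - k * (1 / ((d : ℝ) + 1)))) := by
    unfold V
    have : ∀ I ∈ (Finset.univ : Finset (Fin (d + 1))).powersetCard k, wedgeNorm p I =
        Real.sqrt ((l ^ 2 / 2) ^ k * (1 - k * (1 / ((d : ℝ) + 1)))) := by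
      intro I hI
      unfold wedgeNorm
      congr 1
      rw [← det_reg k I (by rw [Fintype.card_coe]; exact (Finset.mem_powersetCard.1 hI).2)]
      congr 1
      ext i j
      rw [Matrix.of_apply, Matrix.of_apply, hG]
      simp only [Subtype.ext_iff]
    rw [Finset.sum_congr rfl this, Finset.sum_const, Finset.card_powersetCard, Finset.card_univ,
      Fintype.card_fin, nsmul_eq_mul]
  have hL : (∑ i, ‖p i‖) = ((d : ℝ) + 1) * Real.sqrt (l ^ 2 / 2 * (1 - 1 / ((d : ℝ) + 1))) := by
    simp only [hnorm, Finset.sum_const, Finset.card_univ, Fintype.card_fin, nsmul_eq_mul]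
    push_cast; ring
  have hL0 : 0 ≤ ∑ i, ‖p i‖ := Finset.sum_nonneg fun i _ => norm_nonneg _
  have hL2 : (∑ i, ‖p i‖) ^ 2 = ((d : ℝ) + 1) * d * (l ^ 2 / 2) := by
    rw [hL, mul_pow, Real.sq_sqrt (by positivity)]
    field_simp
    ring
  have hsqV : V k p ^ 2 = ((d + 1).choose k : ℝ) ^ 2 *
      ((l ^ 2 / 2) ^ k * (1 - k * (1 / ((d : ℝ) + 1)))) := by
    rw [hV, mul_pow, Real.sq_sqrt (by positivity)]
  have hch : (d.choose k : ℝ) = ((d + 1).choose k : ℝ) * (1 - k * (1 / ((d : ℝ) + 1))) := by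
    have h1 := Nat.choose_mul_succ_eq d k
    have h2 : ((d.choose k : ℝ)) * ((d : ℝ) + 1) = ((d + 1).choose k : ℝ) * ((d : ℝ) + 1 - k) := by
      have h3 : ((d.choose k * (d + 1) : ℕ) : ℝ) = (((d + 1).choose k * (d + 1 - k) : ℕ) : ℝ) := by
        rw [h1]
      rw [Nat.cast_mul, Nat.cast_mul, Nat.cast_sub (by omega)] at h3
      push_cast at h3
      exact h3
    field_simp
    linarith
  have hsqM : Mx d k (∑ i, ‖p i‖) ^ 2 = ((d + 1).choose k : ℝ) * (d.choose k : ℝ) *
      (l ^ 2 / 2) ^ k := by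
    unfold Mx
    rw [mul_pow, Real.sq_sqrt (by positivity), Real.sq_sqrt (by positivity)]
    have h4 : (∑ i, ‖p i‖) / ((d + 1 : ℕ) : ℝ) * ((∑ i, ‖p i‖) / d) = l ^ 2 / 2 := by
      have : (∑ i, ‖p i‖) / ((d + 1 : ℕ) : ℝ) * ((∑ i, ‖p i‖) / d)
          = (∑ i, ‖p i‖) ^ 2 / (((d + 1 : ℕ) : ℝ) * d) := by field_simp
      rw [this, hL2]
      push_cast
      field_simp
    calc _ = ((d + 1).choose k : ℝ) * (d.choose k : ℝ) *
        ((∑ i, ‖p i‖) / ((d + 1 : ℕ) : ℝ) * ((∑ i, ‖p i‖) / d)) ^ k := by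
          rw [mul_pow]; ring
      _ = _ := by rw [h4]
  have hV0 : 0 ≤ V k p := by rw [hV]; positivity
  have hM0 : 0 ≤ Mx d k (∑ i, ‖p i‖) := by unfold Mx; positivity
  have hsq : V k p ^ 2 = Mx d k (∑ i, ‖p i‖) ^ 2 := by
    rw [hsqV, hsqM, hch]; ring
  exact (pow_left_inj₀ hV0 hM0 two_ne_zero).1 hsq

theorem span_regular {d : ℕ} (p : Fin (d + 1) → E d) (hp : IsCentredRegularSimplex p) :
    Submodule.span ℝ (Set.range p) = ⊤ := by
  obtain ⟨hsum, l, hl, hd⟩ := hp
  have hG := gram_regular p hsum l hd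
  have hli : LinearIndependent ℝ (fun i : Fin d => p i.castSucc) := by
    rw [Fintype.linearIndependent_iff]
    intro g hg
    have h1 : ∀ j : Fin d, g j = (∑ i, g i) / ((d : ℝ) + 1) := by
      intro j
      have h2 : inner ℝ (∑ i, g i • p i.castSucc) (p j.castSucc) = (0 : ℝ) := by
        rw [hg, inner_zero_left]
      rw [sum_inner] at h2
      simp only [real_inner_smul_left, hG] at h2
      have h3 : ∑ i : Fin d, g i * (l ^ 2 / 2 * ((if i.castSucc = j.castSucc then 1 else 0)
          - 1 / ((d : ℝ) + 1))) = l ^ 2 / 2 * (g j - (∑ i, g i) / ((d : ℝ) + 1)) := by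
        have : ∀ i : Fin d, g i * (l ^ 2 / 2 * ((if i.castSucc = j.castSucc then 1 else 0)
          - 1 / ((d : ℝ) + 1))) = l ^ 2 / 2 * ((if i = j then g i else 0)
            - g i / ((d : ℝ) + 1)) := by
          intro i
          by_cases h : i = j
          · rw [if_pos (by rw [h]), if_pos h]; ring
          · rw [if_neg (fun h' => h (Fin.castSucc_injective _ h')), if_neg h]; ring
        simp only [this, ← Finset.mul_sum, Finset.sum_sub_distrib, ← Finset.sum_div]
        simp
      rw [h3] at h2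
      have hl2 : l ^ 2 / 2 ≠ 0 := by positivity
      have := (mul_eq_zero.1 h2).resolve_left hl2
      linarith
    have h4 : ∑ i, g i = 0 := by
      have h5 : ∑ i : Fin d, g i = ∑ _i : Fin d, (∑ i, g i) / ((d : ℝ) + 1) :=
        Finset.sum_congr rfl (fun j _ => h1 j)
      rw [Finset.sum_const, Finset.card_univ, Fintype.card_fin, nsmul_eq_mul] at h5
      field_simp at h5
      linarith
    intro j
    rw [h1 j, h4, zero_div]
  have h6 := hli.span_eq_top_of_card_eq_finrank' (by simp)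
  rw [eq_top_iff, ← h6]
  exact Submodule.span_mono (by rintro x ⟨i, rfl⟩; exact ⟨i.castSucc, rfl⟩)


/-! ### Existence of regular simplices -/

theorem exists_regular (d : ℕ) (hd : 0 < d) (L : ℝ) (hL : 0 < L) :
    ∃ p : Fin (d + 1) → E d, IsCentredRegularSimplex p ∧ ∑ i, ‖p i‖ = L := by
  classical
  let F := EuclideanSpace ℝ (Fin (d + 1))
  let u : F := WithLp.toLp 2 (fun _ => (1 : ℝ))
  have hu : u ≠ 0 := by
    intro h
    have := congrArg (fun v : F => v 0) h
    simp [u] at this
  have : Fact (Module.finrank ℝ F = d + 1) := ⟨by simp [F]⟩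
  have hW : Module.finrank ℝ (Submodule.span ℝ {u})ᗮ = d :=
    Submodule.finrank_orthogonal_span_singleton hu
  let φ : (Submodule.span ℝ {u})ᗮ ≃ₗᵢ[ℝ] E d :=
    ((stdOrthonormalBasis ℝ (Submodule.span ℝ {u})ᗮ).reindex (finCongr hW)).repr
  have hmem : ∀ i : Fin (d + 1), (EuclideanSpace.single i (1 : ℝ) - (1 / ((d : ℝ) + 1)) • u : F) ∈
      (Submodule.span ℝ {u})ᗮ := by
    intro i
    rw [Submodule.mem_orthogonal_singleton_iff_inner_right, inner_sub_right,
      real_inner_smul_right, EuclideanSpace.inner_single_right]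
    have h1 : inner ℝ u u = (d : ℝ) + 1 := by
      rw [PiLp.inner_apply]; simp [u]
    rw [h1]
    simp [u]
    field_simp
    ring
  let w : Fin (d + 1) → (Submodule.span ℝ {u})ᗮ := fun i => ⟨_, hmem i⟩
  have hwsum : ∑ i, w i = 0 := by
    apply Subtype.ext
    rw [Submodule.coe_sum]
    simp only [w]
    rw [Finset.sum_sub_distrib, Finset.sum_const, Finset.card_univ, Fintype.card_fin]
    have h1 : (∑ i : Fin (d + 1), (EuclideanSpace.single i (1 : ℝ) : F)) = u := by
      have := (EuclideanSpace.basisFun (Fin (d + 1)) ℝ).sum_repr u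
      simpa [u] using this
    rw [h1, ← Nat.cast_smul_eq_nsmul ℝ, smul_smul]
    have h2 : (((d + 1 : ℕ) : ℝ)) * (1 / ((d : ℝ) + 1)) = 1 := by push_cast; field_simp
    rw [h2, one_smul, sub_self]
    rfl
  have hdist : ∀ i j, i ≠ j → dist (w i) (w j) = Real.sqrt 2 := by
    intro i j hij
    rw [Subtype.dist_eq]
    simp only [w]
    rw [dist_sub_right, EuclideanSpace.dist_eq]
    congr 1
    have h2 : ∀ k, dist ((EuclideanSpace.single i (1 : ℝ) : F) k)
        ((EuclideanSpace.single j (1 : ℝ) : F) k) ^ 2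
        = (if k = i then 1 else 0) + (if k = j then 1 else 0) := by
      intro k
      rw [Real.dist_eq, sq_abs]
      simp only [EuclideanSpace.single_apply]
      by_cases h1 : k = i
      · have h2 : k ≠ j := fun h => hij (h1.symm.trans h)
        simp [h1, h2, hij]
      · by_cases h2 : k = j
        · simp [h1, h2, Ne.symm hij]
        · simp [h1, h2]
    simp only [h2, Finset.sum_add_distrib]
    simp
    norm_num
  let p0 : Fin (d + 1) → E d := fun i => φ (w i)
  have hp0 : ∑ i, p0 i = 0 := by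
    simp only [p0]
    rw [← map_sum, hwsum, map_zero]
  have hd0 : ∀ i j, i ≠ j → dist (p0 i) (p0 j) = Real.sqrt 2 := by
    intro i j hij
    simp only [p0]
    rw [φ.isometry.dist_eq]
    exact hdist i j hij
  have hpos : 0 < ∑ i, ‖p0 i‖ := by
    have hne : ∃ i, p0 i ≠ 0 := by
      by_contra hcon
      push Not at hcon
      have h01 : (0 : Fin (d + 1)) ≠ Fin.last d := by
        intro h
        have := congrArg Fin.val h
        simp at this
        omega
      have := hd0 0 (Fin.last d) h01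
      rw [hcon, hcon, dist_self] at this
      have h2 : 0 < Real.sqrt 2 := Real.sqrt_pos.2 (by norm_num)
      linarith
    obtain ⟨i, hi⟩ := hne
    exact Finset.sum_pos' (fun i _ => norm_nonneg _) ⟨i, Finset.mem_univ _, norm_pos_iff.2 hi⟩
  refine ⟨fun i => (L / ∑ i, ‖p0 i‖) • p0 i, ⟨?_, (L / ∑ i, ‖p0 i‖) * Real.sqrt 2, ?_, ?_⟩, ?_⟩
  · rw [← Finset.smul_sum, hp0, smul_zero]
  · have h2 : 0 < Real.sqrt 2 := Real.sqrt_pos.2 (by norm_num)
    positivity
  · intro i j hij
    rw [dist_smul₀, hd0 i j hij, Real.norm_of_nonneg (by positivity)]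
  · simp only [norm_smul]
    rw [← Finset.mul_sum, Real.norm_of_nonneg (by positivity)]
    field_simp

/-! ### The theorem -/

theorem kappa_pos (m : ℕ) : 0 < kappa m :=
  ENNReal.toReal_pos (Metric.measure_ball_pos _ _ one_pos).ne' measure_ball_lt_top.ne

theorem V_max_regular {d : ℕ} (k : ℕ) (hk : k + 2 ≤ d) (L : ℝ) (hL : 0 < L)
    (p : Fin (d + 1) → E d) (hp : ∑ i, ‖p i‖ = L) (h : Mx d (k + 2) L ≤ V (k + 2) p) :
    ∃ σ : Fin (d + 1) → ℝ, (∀ i, σ i = 1 ∨ σ i = -1) ∧
      IsCentredRegularSimplex (fun i => σ i • p i) := by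
  have hd0 : 0 < d := by omega
  have hdR : (0 : ℝ) < d := by exact_mod_cast hd0
  have h1 := V_le_sqrt p (k + 2)
  have h2 := esum_norm_le p (k + 2)
  have h3 := gram_xs_le p (k + 2) hk
  rw [hp] at h2 h3
  set P := esum Finset.univ (fun i => ‖p i‖) (k + 2) with hP
  set Q := ∑ I ∈ (Finset.univ : Finset (Fin (d + 1))).powersetCard (k + 2),
        Matrix.det (Matrix.of fun i j : I => (inner ℝ (xs p i) (xs p j) : ℝ)) with hQ
  set P0 := ((d + 1).choose (k + 2) : ℝ) * (L / ((d + 1 : ℕ) : ℝ)) ^ (k + 2) with hP0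
  set Q0 := (d.choose (k + 2) : ℝ) * (L / d) ^ (k + 2) with hQ0
  have hc1 : 0 < ((d + 1).choose (k + 2) : ℝ) := by
    exact_mod_cast Nat.choose_pos (by omega : k + 2 ≤ d + 1)
  have hc2 : 0 < (d.choose (k + 2) : ℝ) := by
    exact_mod_cast Nat.choose_pos hk
  have hP0pos : 0 < P0 := by positivity
  have hQ0pos : 0 < Q0 := by positivity
  have hPn : 0 ≤ P := Finset.sum_nonneg fun t _ => Finset.prod_nonneg fun i _ => norm_nonneg _
  have hQn : 0 ≤ Q := Finset.sum_nonneg fun I _ => gram_psd _ I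
  have h4 : Real.sqrt P0 * Real.sqrt Q0 ≤ Real.sqrt P * Real.sqrt Q := h.trans h1
  rw [← Real.sqrt_mul hP0pos.le, ← Real.sqrt_mul hPn] at h4
  have h5 : P0 * Q0 ≤ P * Q := (Real.sqrt_le_sqrt_iff (by positivity)).1 h4
  have h6 : P0 ≤ P := by
    by_contra hcon
    push Not at hcon
    have : P * Q ≤ P * Q0 := mul_le_mul_of_nonneg_left h3 hPn
    have : P * Q0 < P0 * Q0 := mul_lt_mul_of_pos_right hcon hQ0pos
    linarith
  have h7 : Q0 ≤ Q := by
    by_contra hcon
    push Not at hcon
    have : P * Q ≤ P0 * Q := mul_le_mul_of_nonneg_right h2 hQn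
    have : P0 * Q < P0 * Q0 := mul_lt_mul_of_pos_left hcon hP0pos
    linarith
  refine regular_of_frame hd0 p L hL ?_ ?_
  · intro i
    have := maclaurin_eq Finset.univ (fun i => ‖p i‖) (fun i _ => norm_nonneg _) k
      (by simp; omega) (by simpa only [Finset.card_univ, Fintype.card_fin, hp] using h6) i
      (Finset.mem_univ i)
    simpa only [Finset.card_univ, Fintype.card_fin, hp] using this
  · have := gram_sum_eq (xs p) k hk (by simpa only [norm_xs, hp] using h7)
    simpa only [norm_xs, hp] using this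

/-- `p` generates a member of the class `Z_{d,d+1}` of rhombic dodecahedra with mean width `1`. -/
def InClass {d : ℕ} (p : Fin (d + 1) → E d) : Prop :=
  Submodule.span ℝ (Set.range p) = ⊤ ∧ meanWidth p = 1

/-- For `1 < k < d`, among the rhombic dodecahedra in dimension `d` of mean width `1` the `k`-th
intrinsic volume attains its maximum, at the regular ones, and only at regular ones. -/
theorem result (d k : ℕ) (hk : 1 < k) (hkd : k < d) :
    (∃ p : Fin (d + 1) → E d, IsCentredRegularSimplex p ∧ InClass p) ∧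
    (∀ p : Fin (d + 1) → E d, IsCentredRegularSimplex p → InClass p →
      ∀ q : Fin (d + 1) → E d, InClass q → V k q ≤ V k p) ∧
    (∀ q : Fin (d + 1) → E d, InClass q →
      (∀ q' : Fin (d + 1) → E d, InClass q' → V k q' ≤ V k q) →
      ∃ (p : Fin (d + 1) → E d) (v : E d), IsCentredRegularSimplex p ∧
        zonotope q = (fun x => v + x) '' zonotope p) := by
  have hd0 : 0 < d := by omega
  have hdR : (0 : ℝ) < d := by exact_mod_cast hd0
  let c : ℝ := 2 * kappa (d - 1) / (d * kappa d)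
  have hc : 0 < c := by
    have h1 := kappa_pos (d - 1)
    have h2 := kappa_pos d
    simp only [c]
    positivity
  have hmw : ∀ p : Fin (d + 1) → E d, meanWidth p = 1 ↔ ∑ i, ‖p i‖ = 1 / c := by
    intro p
    have : meanWidth p = c * ∑ i, ‖p i‖ := rfl
    rw [this, eq_div_iff hc.ne', mul_comm]
  obtain ⟨p0, hp0, hp0L⟩ := exists_regular d hd0 (1 / c) (by positivity)
  have hp0c : InClass p0 := ⟨span_regular p0 hp0, (hmw p0).2 hp0L⟩
  refine ⟨⟨p0, hp0, hp0c⟩, ?_, ?_⟩
  · intro p hp hpc q hq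
    rw [V_regular hd0 p hp k hkd.le, (hmw p).1 hpc.2, ← (hmw q).1 hq.2]
    exact V_le q k hkd.le
  · intro q hq hmax
    obtain ⟨k', rfl⟩ : ∃ k', k = k' + 2 := ⟨k - 2, by omega⟩
    have h1 := hmax p0 hp0c
    rw [V_regular hd0 p0 hp0 _ hkd.le, hp0L] at h1
    obtain ⟨σ, hσ, hreg⟩ := V_max_regular k' hkd.le (1 / c) (by positivity) q ((hmw q).1 hq.2) h1
    exact ⟨_, _, hreg, zonotope_flip q σ hσ⟩

end Pool.Agent.Results.MP_c3e14a_gt.RegularMaximisers
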